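import Pool.Agent.H82.HD.TR

/-!
MP_ee74d2_an, theorem HD: row PRJ (projective coordinates of the cubes on a tube).
-/

set_option autoImplicit false

namespace Pool.Agent.H29.HD

open MeasureTheory Set
open Pool.Agent.H83.G Pool.Agent.H82.HD
open Pool.Agent.H22.G (co)

variable {m : ℕ}

theorem vc_add (p p' : ℝ × E m) (i : Fin (m + 1)) : vc (p + p') i = vc p i + vc p' i := by
  refine Fin.cases ?_ (fun j => ?_) i
  · simp [vc]
  · simp [vc]

theorem vc_sub (p p' : ℝ × E m) (i : Fin (m + 1)) : vc (p - p') i = vc p i - vc p' i := by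
  refine Fin.cases ?_ (fun j => ?_) i
  · simp [vc]
  · simp [vc]

theorem vc_smul (c : ℝ) (p : ℝ × E m) (i : Fin (m + 1)) : vc (c • p) i = c * vc p i := by
  refine Fin.cases ?_ (fun j => ?_) i
  · simp [vc]
  · simp [vc]

theorem abs_vc_le (p : ℝ × E m) (i : Fin (m + 1)) : |vc p i| ≤ ‖p‖ := by
  refine Fin.cases ?_ (fun j => ?_) i
  · have h : vc p 0 = p.1 := by simp [vc]
    rw [h, ← Real.norm_eq_abs]
    exact norm_fst_le p
  · have h : vc p j.succ = p.2 j := by simp [vc]
    rw [h, ← Real.norm_eq_abs]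
    exact (PiLp.norm_apply_le p.2 j).trans (norm_snd_le p)

theorem pair_norm_le (z : Z m) : ‖((z.1, z.2.1) : ℝ × E m)‖ ≤ ‖z‖ := by
  rw [Prod.norm_def]
  refine max_le (norm_fst_le z) ?_
  exact (norm_fst_le z.2).trans (norm_snd_le z)

theorem pf_PRJ (hBPG : T_BPG) (hHG1 : Pool.Agent.H22.G.T_HG1) : T_PRJ := by
  intro m
  obtain ⟨CH, hCH, hH⟩ := hHG1 m
  obtain ⟨hadd, hsm, htm, hwv, hD⟩ := hBPG m
  obtain ⟨CB, hCB, hB, hB2⟩ := hD 3 (by norm_num)
  have hCBH : 0 ≤ CB * (4 * CB * CH + 16) := by positivity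
  refine ⟨CB * (4 * CB * CH + 16) + 6, by linarith, ?_⟩
  intro R T δ z₀ hR hδ hT hz0 hz1
  have hR0 : (0 : ℝ) < R := by linarith
  have hm0 : (0 : ℝ) ≤ m := Nat.cast_nonneg m
  set r : ℝ := Real.sqrt R with hr
  have hr1 : 1 ≤ r := by
    rw [hr]
    exact Real.one_le_sqrt.2 hR
  have hr0 : 0 < r := by linarith
  have hrr : r * r = R := Real.mul_self_sqrt hR0.le
  have hTm : 32 * R ≤ T := by nlinarith
  have hT0 : 0 < T := by nlinarith
  have hTr : 16 * ((m : ℝ) + 2) * r * r ≤ T := by
    have : 16 * ((m : ℝ) + 2) * r * r = 16 * ((m : ℝ) + 2) * R := by rw [mul_assoc, hrr]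
    linarith
  have hTr32 : 32 * r ≤ T := by nlinarith
  -- the times
  have htq : ∀ q : Zi m, ‖co R q - z₀‖ ≤ ((m : ℝ) + 2) * R →
      |tm (co R q) - tm z₀| ≤ 2 * (((m : ℝ) + 2) * R) := by
    intro q hq
    have h1 := (htm (co R q) z₀ 0).2.1
    have h2 := (htm (co R q - z₀) 0 0).2.2.2
    rw [h1] at h2
    linarith
  have ht1 : ∀ q : Zi m, ‖co R q - z₀‖ ≤ ((m : ℝ) + 2) * R →
      5 / 8 * T ≤ tm (co R q) ∧ tm (co R q) ≤ 25 / 8 * T := by
    intro q hq
    have h1 := abs_le.1 (htq q hq)
    constructor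
    · linarith [h1.1]
    · linarith [h1.2]
  -- the projective time before rounding
  have hx : ∀ q : Zi m, ‖co R q - z₀‖ ≤ ((m : ℝ) + 2) * R →
      8 / 25 * T / r ≤ T ^ 2 / (r * tm (co R q)) ∧
      T ^ 2 / (r * tm (co R q)) ≤ 8 / 5 * T / r := by
    intro q hq
    obtain ⟨h1, h2⟩ := ht1 q hq
    have h0 : 0 < tm (co R q) := by linarith
    have e1 := mul_le_mul_of_nonneg_left h1 (mul_pos hT0 hr0).le
    have e2 := mul_le_mul_of_nonneg_left h2 (mul_pos hT0 hr0).le
    constructor
    · rw [div_le_div_iff₀ hr0 (by positivity)]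
      linarith
    · rw [div_le_div_iff₀ (by positivity) hr0]
      linarith
  have hfl : ∀ q : Zi m, (uq R T q : ℝ) ≤ T ^ 2 / (r * tm (co R q)) ∧
      T ^ 2 / (r * tm (co R q)) - 1 < uq R T q := by
    intro q
    unfold uq
    exact ⟨Int.floor_le _, Int.sub_one_lt_floor _⟩
  have hT1 : 1 ≤ T / r / 32 := by
    rw [le_div_iff₀ (by norm_num), le_div_iff₀ hr0]
    linarith
  refine ⟨fun q hq => ?_, ?_⟩
  · obtain ⟨h1, h2⟩ := ht1 q hq
    obtain ⟨h3, h4⟩ := hx q hq
    obtain ⟨h5, h6⟩ := hfl q
    refine ⟨by linarith, by linarith, ?_, ?_⟩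
    · have e1 : T / (8 * r) = T / r / 8 := by
        field_simp
      have e2 : 8 / 25 * T / r = 8 / 25 * (T / r) := by ring
      rw [e2] at h3
      rw [e1]
      linarith
    · have e1 : 2 * T / r = 2 * (T / r) := by ring
      have e2 : 8 / 5 * T / r = 8 / 5 * (T / r) := by ring
      have e3 : 0 < T / r := by positivity
      rw [e2] at h4
      rw [e1]
      linarith
  · intro q q' hq hq'
    obtain ⟨h1, h2⟩ := ht1 q hq
    obtain ⟨h1', h2'⟩ := ht1 q' hq'
    obtain ⟨h5, h6⟩ := hfl q
    obtain ⟨h5', h6'⟩ := hfl q'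
    set t : ℝ := tm (co R q) with ht
    set t' : ℝ := tm (co R q') with ht'
    have ht0 : 0 < t := by linarith
    have ht0' : 0 < t' := by linarith
    set x : ℝ := T ^ 2 / (r * t) with hxd
    set x' : ℝ := T ^ 2 / (r * t') with hxd'
    have hxx : x - x' = T ^ 2 * (t' - t) / (r * (t * t')) := by
      rw [hxd, hxd']
      field_simp
    have htt : |t - t'| ≤ 4 * (((m : ℝ) + 2) * R) := by
      have e1 := abs_le.1 (htq q hq)
      have e2 := abs_le.1 (htq q' hq')
      rw [abs_le]
      constructor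
      · linarith [e1.1, e2.2]
      · linarith [e1.2, e2.1]
    have hprod : 25 / 64 * T ^ 2 ≤ t * t' := by
      have := mul_le_mul h1 h1' (by positivity) ht0.le
      linarith
    have hprod2 : t * t' ≤ 10 * T ^ 2 := by
      have := mul_le_mul h2 h2' ht0'.le (by positivity)
      have h0 : 0 ≤ T ^ 2 := by positivity
      linarith
    have hxab : |x - x'| ≤ 11 * ((m : ℝ) + 2) * r := by
      rw [hxx, abs_div, abs_mul, abs_of_pos (by positivity : 0 < r * (t * t')),
        abs_of_pos (by positivity : 0 < T ^ 2), div_le_iff₀ (by positivity), abs_sub_comm]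
      have e1 : T ^ 2 * |t - t'| ≤ T ^ 2 * (4 * (((m : ℝ) + 2) * R)) := by gcongr
      have e2 : 11 * ((m : ℝ) + 2) * r * (r * (25 / 64 * T ^ 2)) ≤
          11 * ((m : ℝ) + 2) * r * (r * (t * t')) := by gcongr
      have e3 : T ^ 2 * (4 * (((m : ℝ) + 2) * R)) ≤
          11 * ((m : ℝ) + 2) * r * (r * (25 / 64 * T ^ 2)) := by
        have e4 : 11 * ((m : ℝ) + 2) * r * (r * (25 / 64 * T ^ 2)) =
            275 / 64 * (T ^ 2 * (((m : ℝ) + 2) * R)) := by
          rw [← hrr]
          ring
        rw [e4]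
        have e5 : 0 ≤ T ^ 2 * (((m : ℝ) + 2) * R) := by positivity
        linarith
      linarith
    refine ⟨?_, ?_⟩
    · have e1 : |(uq R T q : ℝ) - uq R T q'| ≤ |x - x'| + 1 := by
        have e2 := abs_le.1 (le_refl |x - x'|)
        rw [abs_le]
        constructor
        · linarith [e2.1]
        · linarith [e2.2]
      have e3 : 1 ≤ ((m : ℝ) + 2) * r := by nlinarith
      have e4 : 0 ≤ ((m : ℝ) + 2) * r := by positivity
      calc |(uq R T q : ℝ) - uq R T q'| ≤ 11 * ((m : ℝ) + 2) * r + 1 := by linarith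
        _ ≤ 20 * ((m : ℝ) + 2) * r := by linarith
    · intro Tu hTu hi hi'
      set η : E m := ctr (sR R) Tu.1 with hη
      obtain ⟨g1, g2⟩ := hH R δ Tu q q' hR hδ hTu hi hi'
      obtain ⟨b1, b2, b3, b4⟩ := hB η (co R q - co R q') hTu
      have hRp : 1 ≤ R ^ (2 * δ) := Real.one_le_rpow hR (by linarith)
      have hRe : R ^ (1 / 2 + 2 * δ) = r * R ^ (2 * δ) := by
        rw [Real.rpow_add hR0, ← Real.sqrt_eq_rpow]
      rw [hRe] at g1 g2
      have hDn : ‖bp η (co R q - co R q')‖ ≤ 2 * CB * CH * (r * R ^ (2 * δ)) := by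
        calc ‖bp η (co R q - co R q')‖ ≤ CB * (|(Lo η 1 (co R q - co R q')).1| +
              ‖(Lo η 1 (co R q - co R q')).2.1‖) := b3
          _ ≤ CB * (CH * (r * R ^ (2 * δ)) + CH * (r * R ^ (2 * δ))) := by gcongr
          _ = 2 * CB * CH * (r * R ^ (2 * δ)) := by ring
      constructor
      · intro i
        set c : ℝ × E m := (z₀.1, z₀.2.1) with hc
        have hbq := (hwv η (co R q)).1
        have hbq' := (hwv η (co R q')).1
        have hw1 := (hwv η (co R q')).2
        rw [← ht] at hbq
        rw [← ht'] at hbq'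
        have hfst : ((((co R q).1 - z₀.1, (co R q).2.1 - z₀.2.1) : ℝ × E m)) =
            t • wv η + (bp η (co R q') - c) + bp η (co R q - co R q') := by
          rw [(hadd η (co R q) (co R q')).2, hbq]
          have e1 : ((((co R q).1 - z₀.1, (co R q).2.1 - z₀.2.1) : ℝ × E m)) =
              (((co R q).1, (co R q).2.1) : ℝ × E m) - c := by
            rw [hc, Prod.mk_sub_mk]
          rw [e1]
          abel
        set P : ℝ := vc (bp η (co R q') - c) i with hP
        have hPn : |P| ≤ 5 * T := by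
          refine (abs_vc_le _ i).trans ?_
          have e1 : bp η (co R q') - c = (((co R q' - z₀).1, (co R q' - z₀).2.1) : ℝ × E m) -
              t' • wv η := by
            rw [hbq', hc]
            have e2 : ((((co R q' - z₀).1, (co R q' - z₀).2.1) : ℝ × E m)) =
                (((co R q').1, (co R q').2.1) : ℝ × E m) - (z₀.1, z₀.2.1) := by
              rw [Prod.fst_sub, Prod.snd_sub, Prod.fst_sub, Prod.mk_sub_mk]
            rw [e2]
            abel
          rw [e1]
          have e3 : ‖t' • wv η‖ ≤ 25 / 8 * T := by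
            rw [norm_smul, Real.norm_eq_abs, abs_of_pos ht0']
            calc t' * ‖wv η‖ ≤ t' * 1 := by gcongr
              _ ≤ 25 / 8 * T := by linarith
          have e4 := pair_norm_le (co R q' - z₀)
          calc ‖(((co R q' - z₀).1, (co R q' - z₀).2.1) : ℝ × E m) - t' • wv η‖ ≤
              ‖(((co R q' - z₀).1, (co R q' - z₀).2.1) : ℝ × E m)‖ + ‖t' • wv η‖ :=
                norm_sub_le _ _
            _ ≤ ((m : ℝ) + 2) * R + 25 / 8 * T := by linarith
            _ ≤ 5 * T := by linarith
        set Q : ℝ := vc (bp η (co R q - co R q')) i with hQ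
        have hQn : |Q| ≤ 2 * CB * CH * (r * R ^ (2 * δ)) := (abs_vc_le _ i).trans hDn
        have hy1 : (yq R T z₀ q i : ℝ) ≤ T / (r * t) * (t * vc (wv η) i + P + Q) ∧
            T / (r * t) * (t * vc (wv η) i + P + Q) - 1 < yq R T z₀ q i := by
          have e1 : T / (r * t) * (t * vc (wv η) i + P + Q) = T / (r * t) *
              vc ((co R q).1 - z₀.1, (co R q).2.1 - z₀.2.1) i := by
            rw [hfst, vc_add, vc_add, vc_smul]
          rw [e1]
          unfold yq
          exact ⟨Int.floor_le _, Int.sub_one_lt_floor _⟩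
        have e2 : T / (r * t) * (t * vc (wv η) i + P + Q) =
            T / r * vc (wv η) i + x * (T⁻¹ * P) + T / (r * t) * Q := by
          rw [hxd]
          field_simp
        rw [e2] at hy1
        have e3 : |(x - uq R T q) * (T⁻¹ * P)| ≤ 5 := by
          rw [abs_mul, abs_mul, abs_of_pos (inv_pos.2 hT0)]
          have e4 : |x - uq R T q| ≤ 1 := by
            rw [abs_le]
            constructor <;> linarith
          have e5 : T⁻¹ * |P| ≤ 5 := by
            rw [inv_mul_le_iff₀ hT0]
            linarith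
          calc |x - uq R T q| * (T⁻¹ * |P|) ≤ 1 * 5 := by gcongr
            _ = 5 := by norm_num
        have e6 : |T / (r * t) * Q| ≤ 4 * CB * CH * R ^ (2 * δ) := by
          rw [abs_mul, abs_of_pos (by positivity : 0 < T / (r * t))]
          have e7 : T / (r * t) ≤ 8 / 5 / r := by
            have e13 := mul_le_mul_of_nonneg_left h1 hr0.le
            rw [div_le_div_iff₀ (by positivity) hr0]
            linarith
          calc T / (r * t) * |Q| ≤ 8 / 5 / r * (2 * CB * CH * (r * R ^ (2 * δ))) := by gcongr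
            _ = 16 / 5 * (CB * CH * R ^ (2 * δ)) := by
              field_simp
              ring
            _ ≤ 4 * CB * CH * R ^ (2 * δ) := by
              have : 0 ≤ CB * CH * R ^ (2 * δ) := by positivity
              linarith
        have e8 : |T / r * vc (wv η) i + uq R T q * (T⁻¹ * P) - yq R T z₀ q i| ≤
            5 + 4 * CB * CH * R ^ (2 * δ) + 1 := by
          have a1 := abs_le.1 e3
          have a2 := abs_le.1 e6
          rw [abs_le]
          constructor
          · linarith [a1.1, a1.2, a2.1, a2.2, hy1.1, hy1.2]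
          · linarith [a1.1, a1.2, a2.1, a2.2, hy1.1, hy1.2]
        refine e8.trans ?_
        have e9 : 4 * CB * CH ≤ CB * (4 * CB * CH + 16) := by
          have e10 : 0 ≤ (CB - 1) * (4 * CB * CH) :=
            mul_nonneg (by linarith) (by positivity)
          linarith
        have e11 : 4 * CB * CH * R ^ (2 * δ) ≤ CB * (4 * CB * CH + 16) * R ^ (2 * δ) := by
          gcongr
        linarith
      · intro huu
        have hx1 : |x - x'| < 1 := by
          rw [huu] at h5 h6
          rw [abs_lt]
          constructor <;> linarith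
        have ht16 : |t - t'| ≤ 16 * r := by
          rw [hxx, abs_div, abs_mul, abs_of_pos (by positivity : 0 < r * (t * t')),
            abs_of_pos (by positivity : 0 < T ^ 2), div_lt_one (by positivity),
            abs_sub_comm] at hx1
          have e1 : r * (t * t') ≤ r * (10 * T ^ 2) := by gcongr
          have e2 : T ^ 2 * |t - t'| ≤ T ^ 2 * (10 * r) := by linarith
          have e3 := le_of_mul_le_mul_left e2 (by positivity)
          linarith
        have htm2 : |tm (co R q - co R q')| ≤ 16 * r := by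
          rw [(htm (co R q) (co R q') 0).2.1]
          exact ht16
        rw [hRe]
        calc ‖co R q - co R q'‖ ≤ CB * (‖bp η (co R q - co R q')‖ +
              |tm (co R q - co R q')|) := b2
          _ ≤ CB * (2 * CB * CH * (r * R ^ (2 * δ)) + 16 * (r * R ^ (2 * δ))) := by
            have : 16 * r ≤ 16 * (r * R ^ (2 * δ)) := by
              have := le_mul_of_one_le_right hr0.le hRp
              linarith
            gcongr
            linarith
          _ = (2 * CB * CB * CH + 16 * CB) * (r * R ^ (2 * δ)) := by ring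
          _ ≤ (CB * (4 * CB * CH + 16) + 6) * (r * R ^ (2 * δ)) := by
            have e12 : 0 ≤ CB * CB * CH := by positivity
            refine mul_le_mul_of_nonneg_right ?_ (by positivity)
            linarith

end Pool.Agent.H29.HD
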